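import Pool.Agent.W_d741r_h37.Lead

/-! MP_d741cf_al, explicit complex: exactness over the monoid. -/

namespace AG

open AM Finset

/-- The combinatorial identity of the cone homotopy. -/
theorem cone_id {A : Type*} [AddCommGroup A] (F : Finset (Fin 4) → A) (T : Finset (Fin 4))
    (s0 : Fin 4) (h0 : ∀ t ∈ T, s0 ≤ t) :
    F T = (if s0 ∈ T then 0 else ∑ s ∈ insert s0 T, sg s (insert s0 T) • F ((insert s0 T).erase s)) +
      ∑ s ∈ T, sg s T • (if s0 ∈ T.erase s then 0 else F (insert s0 (T.erase s))) := by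
  have hs0 : ∀ R : Finset (Fin 4), (∀ t ∈ R, s0 ≤ t) → sg s0 R = 1 := by
    intro R hR
    have h1 : R.filter (· < s0) = ∅ := by
      rw [Finset.filter_eq_empty_iff]
      intro t ht
      exact not_lt.mpr (hR t ht)
    rw [sg, h1, Finset.card_empty, pow_zero]
  by_cases h1 : s0 ∈ T
  · rw [if_pos h1, zero_add, Finset.sum_eq_single s0]
    · rw [if_neg (Finset.notMem_erase s0 T), Finset.insert_erase h1, hs0 T h0, one_smul]
    · intro s _ hs
      rw [if_pos (Finset.mem_erase.mpr ⟨Ne.symm hs, h1⟩), smul_zero]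
    · intro h2
      exact absurd h1 h2
  · rw [if_neg h1, Finset.sum_insert h1, Finset.erase_insert h1,
      hs0 _ (by
        intro t ht
        rcases Finset.mem_insert.mp ht with rfl | ht
        · exact le_rfl
        · exact h0 t ht), one_smul, add_assoc, ← Finset.sum_add_distrib, Finset.sum_eq_zero,
      add_zero]
    intro s hs
    have hne : s ≠ s0 := by
      rintro rfl
      exact h1 hs
    have h2 : sg s (insert s0 T) = -sg s T := by
      have hlt : s0 < s := lt_of_le_of_ne (h0 s hs) (Ne.symm hne)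
      rw [sg, sg, Finset.filter_insert, if_pos hlt, Finset.card_insert_of_notMem, pow_succ,
        mul_neg_one]
      intro h3
      exact h1 (Finset.mem_filter.mp h3).1
    rw [if_neg (fun h3 => h1 (Finset.mem_erase.mp h3).2), h2, neg_smul,
      Finset.erase_insert_of_ne (Ne.symm hne), neg_add_cancel]

theorem alg_aux {A : Type*} [AddCommGroup A] {t a b d h : A} (e : t = a + b) :
    t - d - h = -(d - a) - (h - b) := by
  rw [e]
  abel

/-- The homotopy lowers the filtration up to the identity. -/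
theorem key_tp {y x : M4} {T : Finset (Fin 4)} (hy : y = dl T * x) (h : (LD y).Nonempty) :
    tp y T - dC (MonoidHom.id M4) (hC (tp y T)) - hC (dC (MonoidHom.id M4) (tp y T)) ∈
      Fl (lh y) := by
  have hT : T ⊆ LD y := subset_LD hy
  have h0 : ∀ t ∈ T, (LD y).min' h ≤ t := fun t ht => Finset.min'_le _ _ (hT ht)
  have hm : (LD y).min' h ∈ LD y := Finset.min'_mem _ _
  -- second term
  have e1 : dC (MonoidHom.id M4) (hC (tp y T)) - (if (LD y).min' h ∈ T then 0 else
      ∑ s ∈ insert ((LD y).min' h) T, sg s (insert ((LD y).min' h) T) •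
        tp y ((insert ((LD y).min' h) T).erase s)) ∈ Fl (lh y) := by
    rw [hC_tp hy h]
    by_cases h1 : (LD y).min' h ∈ T
    · rw [if_pos h1, if_pos h1, map_zero, sub_zero]
      exact zero_mem _
    · rw [if_neg h1, if_neg h1]
      obtain ⟨x', hx'⟩ := exists_of_subset (y := y) (T := insert ((LD y).min' h) T)
        (Finset.insert_subset hm hT)
      exact dC_tp hx'
  -- third term
  have e2 : hC (dC (MonoidHom.id M4) (tp y T)) - ∑ s ∈ T, sg s T •
      (if (LD y).min' h ∈ T.erase s then 0 else tp y (insert ((LD y).min' h) (T.erase s))) ∈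
      Fl (lh y) := by
    have h1 := hC_Fl (dC_tp hy)
    rw [map_sub, map_sum] at h1
    have h2 : ∀ s ∈ T, hC (sg s T • tp y (T.erase s)) = sg s T •
        (if (LD y).min' h ∈ T.erase s then 0 else tp y (insert ((LD y).min' h) (T.erase s))) := by
      intro s _
      obtain ⟨x', hx'⟩ := exists_of_subset (y := y) (T := T.erase s)
        ((Finset.erase_subset _ _).trans hT)
      rw [map_zsmul, hC_tp hx' h]
    rw [Finset.sum_congr rfl h2] at h1
    exact h1
  have e3 := cone_id (tp y) T ((LD y).min' h) h0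
  rw [alg_aux e3]
  exact sub_mem (neg_mem e1) e2

/-- The operator `1 - d h - h d`. -/
noncomputable def EC : Ch M4 →ₗ[ℤ] Ch M4 :=
  LinearMap.id - (dC (MonoidHom.id M4)) ∘ₗ hC - hC ∘ₗ (dC (MonoidHom.id M4))

theorem EC_apply (c : Ch M4) : EC c = c - dC (MonoidHom.id M4) (hC c) -
    hC (dC (MonoidHom.id M4) c) := rfl

theorem EC_single {x : M4} {T : Finset (Fin 4)} (h : T.Nonempty) (a : ℤ) :
    EC (Finsupp.single (x, T) a) ∈ Fl (lh (dl T * x)) := by
  have hne : (LD (dl T * x)).Nonempty := h.mono (subset_LD rfl)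
  have h1 : EC (tp (dl T * x) T) ∈ Fl (lh (dl T * x)) := by
    rw [EC_apply]
    exact key_tp rfl hne
  have h2 : (Finsupp.single (x, T) a : Ch M4) = (a * (-1) ^ lh (dl T)) • tp (dl T * x) T := by
    rw [tp_mul, eb, Finsupp.smul_single, smul_eq_mul, mul_assoc, ← mul_pow]
    simp
  rw [h2, map_zsmul]
  exact Submodule.smul_mem _ _ h1

/-- Chains of rank `r`. -/
def Rq (X : Type) (r : ℕ) : Submodule ℤ (Ch X) :=
  Finsupp.supported ℤ ℤ {p : X × Finset (Fin 4) | p.2.card = r}

theorem EC_mem {N r : ℕ} {c : Ch M4} (hc : c ∈ Fl (N + 1)) (hr : c ∈ Rq M4 (r + 1)) :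
    EC c ∈ Fl N := by
  rw [← Finsupp.sum_single c, Finsupp.sum, map_sum]
  refine Submodule.sum_mem _ fun p hp => ?_
  have h1 : lh (dl p.2 * p.1) < N + 1 := (Finsupp.mem_supported ℤ c).1 hc hp
  have h2 : p.2.card = r + 1 := (Finsupp.mem_supported ℤ c).1 hr hp
  have h3 : p.2.Nonempty := Finset.card_pos.mp (by omega)
  exact Fl_mono (Nat.lt_succ_iff.mp h1) (EC_single h3 (c p))

section rank

variable {G : Type*} [Monoid G] (φ : M4 →* G) {X : Type} [MulAction G X]

theorem lsum_Rq (x : X) (R : Finset (Fin 4)) (l : List (List (Fin 4))) :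
    lsum φ x R l ∈ Rq X R.card := by
  induction l with
  | nil => exact zero_mem _
  | cons w l ih =>
    rw [lsum_cons]
    exact add_mem (Finsupp.single_mem_supported ℤ _ (by exact rfl)) ih

theorem dC_Rq {r : ℕ} {c : Ch X} (hc : c ∈ Rq X (r + 1)) : dC φ c ∈ Rq X r := by
  rw [dC, Finsupp.linearCombination_apply]
  refine Submodule.sum_mem _ fun p hp => Submodule.smul_mem _ _ ?_
  have h2 : p.2.card = r + 1 := (Finsupp.mem_supported ℤ c).1 hc hp
  refine Submodule.sum_mem _ fun s hs => Submodule.smul_mem _ _ ?_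
  have h3 := lsum_Rq φ p.1 (p.2.erase s) (L p.2 s)
  rwa [Finset.card_erase_of_mem hs, h2, Nat.add_sub_cancel] at h3

end rank

theorem tp_Rq (y : M4) (T : Finset (Fin 4)) : tp y T ∈ Rq M4 T.card := by
  unfold tp
  split_ifs
  · exact Finsupp.single_mem_supported ℤ _ (by exact rfl)
  · exact zero_mem _

theorem hC_Rq {r : ℕ} {c : Ch M4} (hc : c ∈ Rq M4 r) : hC c ∈ Rq M4 (r + 1) := by
  rw [hC, Finsupp.linearCombination_apply]
  refine Submodule.sum_mem _ fun p hp => Submodule.smul_mem _ _ ?_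
  have h2 : p.2.card = r := (Finsupp.mem_supported ℤ c).1 hc hp
  unfold hB
  split_ifs with h h1
  · exact zero_mem _
  · have h3 := tp_Rq (dl p.2 * p.1) (insert ((LD (dl p.2 * p.1)).min' h) p.2)
    rw [Finset.card_insert_of_notMem h1, h2] at h3
    exact Submodule.smul_mem _ _ h3
  · exact zero_mem _

/-- Exactness in positive rank, with the filtration. -/
theorem exM_aux (r : ℕ) : ∀ (N : ℕ) (c : Ch M4), c ∈ Fl N → c ∈ Rq M4 (r + 1) →
    dC (MonoidHom.id M4) c = 0 → ∃ b ∈ Rq M4 (r + 2), dC (MonoidHom.id M4) b = c := by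
  intro N
  induction N with
  | zero =>
    intro c hc _ _
    have h0 : c = 0 := by
      rw [← Finsupp.support_eq_empty, Finset.eq_empty_iff_forall_notMem]
      intro p hp
      have h1 : lh (dl p.2 * p.1) < 0 := (Finsupp.mem_supported ℤ c).1 hc hp
      exact absurd h1 (Nat.not_lt_zero _)
    exact ⟨0, zero_mem _, by rw [map_zero, h0]⟩
  | succ N ih =>
    intro c hc hr hd
    have h1 : EC c = c - dC (MonoidHom.id M4) (hC c) := by
      rw [EC_apply, hd, map_zero, sub_zero]
    have h2 : EC c ∈ Rq M4 (r + 1) := by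
      rw [h1]
      exact sub_mem hr (dC_Rq _ (hC_Rq hr))
    have h3 : dC (MonoidHom.id M4) (EC c) = 0 := by
      rw [h1, map_sub, hd, dC_dC, sub_zero]
    obtain ⟨b, hb, hb'⟩ := ih (EC c) (EC_mem hc hr) h2 h3
    refine ⟨b + hC c, add_mem hb (hC_Rq hr), ?_⟩
    rw [map_add, hb', h1, sub_add_cancel]

theorem exists_Fl (c : Ch M4) : ∃ N, c ∈ Fl N := by
  induction c using Finsupp.induction_linear with
  | zero => exact ⟨0, zero_mem _⟩
  | add a b ha hb =>
    obtain ⟨N, hN⟩ := ha
    obtain ⟨N', hN'⟩ := hb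
    exact ⟨max N N', add_mem (Fl_mono (le_max_left _ _) hN) (Fl_mono (le_max_right _ _) hN')⟩
  | single p a =>
    have h1 : lh (dl p.2 * p.1) < lh (dl p.2 * p.1) + 1 := Nat.lt_succ_self _
    exact ⟨_, single_mem_Fl h1 a⟩

/-- Exactness over the monoid in positive rank. -/
theorem exM (r : ℕ) (c : Ch M4) (hr : c ∈ Rq M4 (r + 1)) (hd : dC (MonoidHom.id M4) c = 0) :
    ∃ b ∈ Rq M4 (r + 2), dC (MonoidHom.id M4) b = c := by
  obtain ⟨N, hN⟩ := exists_Fl c
  exact exM_aux r N c hN hr hd

end AG
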