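import Pool.Agent.W_d741r_h37.Exact

/-! MP_d741cf_al, explicit complex: exactness over the monoid in rank 0. -/

namespace AG

open AM Finset

theorem L_single : ∀ s : Fin 4, L {s} s = [[], [s]] := by decide +kernel

theorem sg_single : ∀ s : Fin 4, sg s {s} = 1 := by decide +kernel

theorem dB_one (x : M4) (s : Fin 4) : dB (MonoidHom.id M4) (x, {s}) =
    Finsupp.single (x, ∅) 1 - Finsupp.single (of C4 s * x, ∅) 1 := by
  have h1 : lsum (MonoidHom.id M4) x ∅ [[], [s]] =
      Finsupp.single (x, (∅ : Finset (Fin 4))) (1 : ℤ) +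
        Finsupp.single (of C4 s * x, ∅) (-1 : ℤ) := by
    rw [lsum_cons, lsum_cons, lsum_nil, add_zero, mk_nil, map_one, one_smul]
    simp only [List.length_nil, pow_zero, List.length_singleton, pow_one]
    rfl
  have h2 : ({s} : Finset (Fin 4)).erase s = ∅ := by simp
  rw [dB]
  simp only
  rw [Finset.sum_singleton, sg_single, one_smul, L_single, h2, h1, Finsupp.single_neg,
    sub_eq_add_neg]

theorem pt_boundary (x : M4) : ∃ b ∈ Rq M4 1, dC (MonoidHom.id M4) b =
    Finsupp.single (x, (∅ : Finset (Fin 4))) (1 : ℤ) - Finsupp.single (1, ∅) 1 := by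
  induction x using ind with
  | h u =>
    induction u with
    | nil => exact ⟨0, zero_mem _, by rw [map_zero, mk_nil, sub_self]⟩
    | cons s u ih =>
      obtain ⟨b, hb, hb'⟩ := ih
      refine ⟨b - Finsupp.single (mk C4 u, {s}) 1, sub_mem hb ?_, ?_⟩
      · exact Finsupp.single_mem_supported ℤ _ (by exact Finset.card_singleton s)
      · rw [map_sub, hb', dC_single, one_smul, dB_one, AM.mk_cons]
        abel

/-- Exactness over the monoid in rank 0. -/
theorem ex0M (c : Ch M4) (hr : c ∈ Rq M4 0) (hs : (c.sum fun _ a => a) = 0) :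
    ∃ b ∈ Rq M4 1, dC (MonoidHom.id M4) b = c := by
  choose b hb hb' using pt_boundary
  refine ⟨∑ p ∈ c.support, c p • b p.1, Submodule.sum_mem _ fun p _ =>
    Submodule.smul_mem _ _ (hb _), ?_⟩
  have h1 : ∀ p ∈ c.support, dC (MonoidHom.id M4) (c p • b p.1) =
      Finsupp.single p (c p) - c p • Finsupp.single ((1 : M4), (∅ : Finset (Fin 4))) (1 : ℤ) := by
    intro p hp
    have h2 : p.2.card = 0 := (Finsupp.mem_supported ℤ c).1 hr hp
    have h3 : p.2 = ∅ := Finset.card_eq_zero.mp h2
    have h4 : (p.1, (∅ : Finset (Fin 4))) = p := by rw [← h3]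
    rw [map_zsmul, hb', smul_sub, h4, Finsupp.smul_single, smul_eq_mul, mul_one]
  rw [map_sum, Finset.sum_congr rfl h1, Finset.sum_sub_distrib, ← Finset.sum_smul]
  have h5 : ∑ p ∈ c.support, c p = 0 := hs
  rw [h5, zero_smul, sub_zero]
  exact Finsupp.sum_single c

end AG
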