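import Pool.Agent.W_d741r_h37.Lists

/-! MP_d741cf_al, explicit complex: definition of the complex `Ch X` of a set `X` with an action. -/

namespace AG

open AM Finset

/-- The sign of the face `T - s` of `T`. -/
def sg (s : Fin 4) (T : Finset (Fin 4)) : ℤ := (-1) ^ (T.filter (· < s)).card

/-- The chains on the set `X`. -/
abbrev Ch (X : Type*) : Type _ := (X × Finset (Fin 4)) →₀ ℤ

section defs

variable {G : Type*} [Monoid G] (φ : M4 →* G) {X : Type*} [MulAction G X]

/-- The signed sum over the words in a list. -/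
noncomputable def lsum (x : X) (R : Finset (Fin 4)) (l : List (List (Fin 4))) : Ch X :=
  (l.map fun w => Finsupp.single (φ (mk C4 w) • x, R) ((-1 : ℤ) ^ w.length)).sum

/-- The boundary of a basis element. -/
noncomputable def dB (p : X × Finset (Fin 4)) : Ch X :=
  ∑ s ∈ p.2, sg s p.2 • lsum φ p.1 (p.2.erase s) (L p.2 s)

/-- The boundary. -/
noncomputable def dC : Ch X →ₗ[ℤ] Ch X := Finsupp.linearCombination ℤ (dB φ)

theorem dC_single (p : X × Finset (Fin 4)) (c : ℤ) :
    dC φ (Finsupp.single p c) = c • dB φ p := by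
  rw [dC, Finsupp.linearCombination_single]

theorem lsum_nil (x : X) (R : Finset (Fin 4)) : lsum φ x R [] = 0 := rfl

theorem lsum_cons (x : X) (R : Finset (Fin 4)) (w : List (Fin 4)) (l : List (List (Fin 4))) :
    lsum φ x R (w :: l) =
      Finsupp.single (φ (mk C4 w) • x, R) ((-1 : ℤ) ^ w.length) + lsum φ x R l := by
  rw [lsum, List.map_cons, List.sum_cons]
  rfl

theorem lsum_append (x : X) (R : Finset (Fin 4)) (l l' : List (List (Fin 4))) :
    lsum φ x R (l ++ l') = lsum φ x R l + lsum φ x R l' := by
  rw [lsum, List.map_append, List.sum_append]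
  rfl

/-- The signed sum depends only on the classes of the words, up to permutation. -/
theorem lsum_perm (x : X) (R : Finset (Fin 4)) {l l' : List (List (Fin 4))}
    (h : (l.map (mk C4)).Perm (l'.map (mk C4))) : lsum φ x R l = lsum φ x R l' := by
  have key : ∀ l : List (List (Fin 4)), lsum φ x R l =
      ((l.map (mk C4)).map fun m => Finsupp.single (φ m • x, R)
        ((-1 : ℤ) ^ (lenHom gar4 m))).sum := by
    intro l
    rw [List.map_map]
    rfl
  rw [key, key]
  exact (h.map _).sum_eq

/-- Naturality. -/
theorem lsum_map {Y : Type*} [MulAction G Y] (f : X → Y) (hf : ∀ (g : G) (x : X), f (g • x) = g • f x)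
    (x : X) (R : Finset (Fin 4)) (l : List (List (Fin 4))) :
    Finsupp.mapDomain (fun p : X × Finset (Fin 4) => (f p.1, p.2)) (lsum φ x R l) =
      lsum φ (f x) R l := by
  induction l with
  | nil => rw [lsum_nil, lsum_nil, Finsupp.mapDomain_zero]
  | cons w l ih =>
    rw [lsum_cons, lsum_cons, Finsupp.mapDomain_add, ih, Finsupp.mapDomain_single, hf]

end defs

/-- The map of chains of a map of sets. -/
noncomputable def mapC {X Y : Type*} (f : X → Y) : Ch X →ₗ[ℤ] Ch Y :=
  Finsupp.lmapDomain ℤ ℤ fun p => (f p.1, p.2)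

theorem mapC_apply {X Y : Type*} (f : X → Y) (c : Ch X) :
    mapC f c = Finsupp.mapDomain (fun p : X × Finset (Fin 4) => (f p.1, p.2)) c := rfl

theorem mapC_single {X Y : Type*} (f : X → Y) (p : X × Finset (Fin 4)) (c : ℤ) :
    mapC f (Finsupp.single p c) = Finsupp.single (f p.1, p.2) c := by
  rw [mapC_apply, Finsupp.mapDomain_single]

theorem mapC_comp {X Y Z : Type*} (f : X → Y) (g : Y → Z) (c : Ch X) :
    mapC g (mapC f c) = mapC (fun x => g (f x)) c := by
  rw [mapC_apply, mapC_apply, mapC_apply, ← Finsupp.mapDomain_comp]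
  rfl

theorem mapC_id {X : Type*} (c : Ch X) : mapC (fun x => x) c = c := by
  rw [mapC_apply]
  exact Finsupp.mapDomain_id

/-- The boundary commutes with the map of chains of an equivariant map. -/
theorem dC_mapC {G : Type*} [Monoid G] (φ : M4 →* G) {X Y : Type*} [MulAction G X] [MulAction G Y]
    (f : X → Y) (hf : ∀ (g : G) (x : X), f (g • x) = g • f x) (c : Ch X) :
    dC φ (mapC f c) = mapC f (dC φ c) := by
  induction c using Finsupp.induction_linear with
  | zero => simp
  | add a b ha hb => rw [map_add, map_add, map_add, map_add, ha, hb]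
  | single p n =>
    rw [mapC_single, dC_single, dC_single, map_zsmul]
    congr 1
    unfold dB
    rw [map_sum]
    apply Finset.sum_congr rfl
    intro s _
    rw [map_zsmul, mapC_apply, lsum_map φ f hf]

/-- Rank `k` chains. -/
def IsRk {X : Type*} (k : ℕ) (c : Ch X) : Prop := ∀ p ∈ c.support, p.2.card = k

end AG
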