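import Pool.Agent.W_d741r_h37.Match

/-! MP_d741cf_al, explicit complex: the products `w' w` do not depend on the order of removing
`s` and `t`. -/

namespace AG

open AM

theorem chk_all : ∀ T : Finset (Fin 4), ∀ s ∈ T, ∀ t ∈ T, s < t → chkJ T s t = true := by
  decide +kernel

/-- The two families of products agree up to a permutation. -/
theorem PL_perm {T : Finset (Fin 4)} {s t : Fin 4} (hs : s ∈ T) (ht : t ∈ T) (hst : s ≠ t) :
    ((PL T s t).map (mk C4)).Perm ((PL T t s).map (mk C4)) := by
  have key : ∀ s t : Fin 4, s ∈ T → t ∈ T → s < t →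
      ((PL T s t).map (mk C4)).Perm ((PL T t s).map (mk C4)) := by
    intro s t hs ht hst
    have h := chk_all T s hs t ht hst
    rw [chkJ, Bool.and_eq_true, List.isPerm_iff] at h
    exact perm_of_chk h.1 h.2
  rcases lt_or_gt_of_ne hst with h | h
  · exact key s t hs ht h
  · exact (key t s ht hs h).symm

end AG
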