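import Pool.Agent.W_d741r_h37.Cpx
import Pool.Agent.W_d741r_h37.Perm

/-! MP_d741cf_al, explicit complex: `d d = 0`. -/

namespace AG

open AM Finset

variable {G : Type*} [Monoid G] (φ : M4 →* G) {X : Type*} [MulAction G X]

theorem smul_lsum (x : X) (R : Finset (Fin 4)) (w : List (Fin 4)) (l : List (List (Fin 4))) :
    ((-1 : ℤ) ^ w.length) • lsum φ (φ (mk C4 w) • x) R l =
      lsum φ x R (l.map fun w' => w' ++ w) := by
  induction l with
  | nil => rw [List.map_nil, lsum_nil, lsum_nil, smul_zero]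
  | cons w' l ih =>
    rw [List.map_cons, lsum_cons, lsum_cons, smul_add, ih, Finsupp.smul_single, mk_append,
      map_mul, mul_smul, List.length_append, pow_add, smul_eq_mul, mul_comm]

theorem dC_lsum (x : X) (R : Finset (Fin 4)) (l : List (List (Fin 4))) :
    dC φ (lsum φ x R l) = ∑ t ∈ R, sg t R •
      lsum φ x (R.erase t) (l.flatMap fun w => (L R t).map fun w' => w' ++ w) := by
  induction l with
  | nil => simp [lsum_nil]
  | cons w l ih =>
    rw [lsum_cons, map_add, ih, dC_single, dB, Finset.smul_sum, ← Finset.sum_add_distrib]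
    apply Finset.sum_congr rfl
    intro t _
    rw [List.flatMap_cons, lsum_append, smul_add, ← smul_lsum]
    congr 1
    rw [smul_comm]

theorem dC_dB (p : X × Finset (Fin 4)) :
    dC φ (dB φ p) = ∑ s ∈ p.2, ∑ t ∈ p.2.erase s, (sg s p.2 * sg t (p.2.erase s)) •
      lsum φ p.1 ((p.2.erase s).erase t) (PL p.2 s t) := by
  rw [dB, map_sum]
  apply Finset.sum_congr rfl
  intro s _
  rw [map_zsmul, dC_lsum, Finset.smul_sum]
  apply Finset.sum_congr rfl
  intro t _
  rw [mul_smul]
  rfl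

theorem sg_anti : ∀ T : Finset (Fin 4), ∀ s ∈ T, ∀ t ∈ T, s ≠ t →
    sg s T * sg t (T.erase s) = -(sg t T * sg s (T.erase t)) := by decide +kernel

/-- An antisymmetric double sum vanishes. -/
theorem sum_anti {A : Type*} [AddCommGroup A] (T : Finset (Fin 4)) (f : Fin 4 → Fin 4 → A)
    (h : ∀ s ∈ T, ∀ t ∈ T, s ≠ t → f s t = -f t s) :
    ∑ s ∈ T, ∑ t ∈ T.erase s, f s t = 0 := by
  rw [Finset.sum_sigma']
  apply Finset.sum_involution (fun p _ => (⟨p.2, p.1⟩ : Σ _ : Fin 4, Fin 4))
  · rintro ⟨s, t⟩ hp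
    simp only [Finset.mem_sigma, Finset.mem_erase] at hp
    simp only
    rw [h s hp.1 t hp.2.2 (Ne.symm hp.2.1), neg_add_cancel]
  · rintro ⟨s, t⟩ hp _ h'
    simp only [Finset.mem_sigma, Finset.mem_erase] at hp
    simp only [Sigma.mk.injEq, heq_eq_eq] at h'
    exact hp.2.1 h'.1
  · rintro ⟨s, t⟩ hp
    simp only [Finset.mem_sigma, Finset.mem_erase] at hp ⊢
    exact ⟨hp.2.2, Ne.symm hp.2.1, hp.1⟩
  · rintro ⟨s, t⟩ _
    rfl

/-- `d d = 0`. -/
theorem dC_dC (c : Ch X) : dC φ (dC φ c) = 0 := by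
  induction c using Finsupp.induction_linear with
  | zero => simp
  | add a b ha hb => rw [map_add, map_add, ha, hb, add_zero]
  | single p n =>
    rw [dC_single, map_zsmul, dC_dB, sum_anti, smul_zero]
    intro s hs t ht hst
    rw [sg_anti _ s hs t ht hst, neg_smul, Finset.erase_right_comm,
      lsum_perm φ p.1 _ (PL_perm hs ht hst)]

end AG
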