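import Pool.Agent.W_d741_h93.Fin
import Pool.Agent.W_d741_h93.Half
import Pool.Agent.W_d741_h93.Trans
import Pool.Agent.W_d741h_h9.Main
import Pool.Agent.W_d741r_h37.Exact0

/-! MP_d741cf_al: assembly check. -/

namespace FH

open AG FK

theorem fHalf_holds : FHalf :=
  fHalf FK.sys (FK.sys_res (ex_of_exM fun r c hc h0 => exM r c hc h0)
    (ex0_of_ex0M fun c hc h0 => ex0M c hc h0)) FK.sys_coef

theorem not_commensurable : ¬ AbsCommensurable (Artin mF4) (Artin mH4) :=
  not_comm fHalf_holds FHH.hHalf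

end FH
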