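import Pool.Agent.W_d741r_h37.DD

/-! MP_d741cf_al, explicit complex: the filtration of the complex of the monoid, leading terms and
the contracting homotopy. -/

namespace AG

open AM Finset

/-- The length in `M4`. -/
def lh (x : M4) : ℕ := lenHom gar4 x

theorem lh_mul (x y : M4) : lh (x * y) = lh x + lh y := lenHom_mul gar4 x y

theorem lh_mk (u : List (Fin 4)) : lh (mk C4 u) = u.length := lenHom_mk gar4 u

/-- The filtration. -/
def Fl (N : ℕ) : Submodule ℤ (Ch M4) := Finsupp.supported ℤ ℤ {p | lh (dl p.2 * p.1) < N}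

theorem single_mem_Fl {N : ℕ} {p : M4 × Finset (Fin 4)} (h : lh (dl p.2 * p.1) < N) (a : ℤ) :
    Finsupp.single p a ∈ Fl N := Finsupp.single_mem_supported ℤ a h

theorem Fl_mono {N N' : ℕ} (h : N ≤ N') : Fl N ≤ Fl N' :=
  Finsupp.supported_mono fun _ hp => lt_of_lt_of_le hp h

/-- The signed basis element. -/
noncomputable def eb (x : M4) (T : Finset (Fin 4)) : Ch M4 :=
  Finsupp.single (x, T) ((-1 : ℤ) ^ lh (dl T))

open Classical in
/-- The signed basis element of cell `T` below `y`. -/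
noncomputable def tp (y : M4) (T : Finset (Fin 4)) : Ch M4 :=
  if h : ∃ x, y = dl T * x then eb h.choose T else 0

theorem tp_mul (x : M4) (T : Finset (Fin 4)) : tp (dl T * x) T = eb x T := by
  have h : ∃ x', dl T * x = dl T * x' := ⟨x, rfl⟩
  rw [tp, dif_pos h, ← mul_left_cancel' gar4 h.choose_spec]

theorem tp_mem (y : M4) (T : Finset (Fin 4)) : tp y T ∈ Fl (lh y + 1) := by
  by_cases h : ∃ x, y = dl T * x
  · obtain ⟨x, rfl⟩ := h
    rw [tp_mul, eb]
    have h1 : lh (dl T * x) < lh (dl T * x) + 1 := Nat.lt_succ_self _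
    exact single_mem_Fl (p := (x, T)) h1 _
  · rw [tp, dif_neg h]
    exact zero_mem _

theorem lsum_mem {N : ℕ} (x : M4) (R : Finset (Fin 4)) (l : List (List (Fin 4)))
    (h : ∀ w ∈ l, lh (dl R * (mk C4 w * x)) < N) :
    lsum (MonoidHom.id M4) x R l ∈ Fl N := by
  induction l with
  | nil => exact zero_mem _
  | cons w l ih =>
    rw [lsum_cons]
    refine add_mem (single_mem_Fl ?_ _) (ih fun w' hw' => h w' (List.mem_cons_of_mem _ hw'))
    exact h w List.mem_cons_self

theorem neg_one_aux {a b c : ℕ} (h : a = c + b) : (-1 : ℤ) ^ a * (-1) ^ b = (-1) ^ c := by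
  rw [h, pow_add, mul_assoc, ← mul_pow]
  simp

/-- The leading term of the boundary. -/
theorem dC_tp {y x : M4} {T : Finset (Fin 4)} (hy : y = dl T * x) :
    dC (MonoidHom.id M4) (tp y T) - ∑ s ∈ T, sg s T • tp y (T.erase s) ∈ Fl (lh y) := by
  subst hy
  rw [tp_mul, eb, dC_single, dB, Finset.smul_sum, ← Finset.sum_sub_distrib]
  refine Submodule.sum_mem _ fun s hs => ?_
  have h1 : dl T * x = dl (T.erase s) * (mk C4 (wm T s) * x) := by
    rw [← mul_assoc, dl_mul_wm hs]
  have hl : lh (dl T) = lh (dl (T.erase s)) + (wm T s).length := by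
    rw [← dl_mul_wm hs, lh_mul, lh_mk]
  have h2 : tp (dl T * x) (T.erase s) = Finsupp.single (mk C4 (wm T s) * x, T.erase s)
      ((-1 : ℤ) ^ lh (dl (T.erase s))) := by
    rw [h1, tp_mul, eb]
  have h3 : lsum (MonoidHom.id M4) x (T.erase s) [wm T s] =
      Finsupp.single (mk C4 (wm T s) * x, T.erase s) ((-1 : ℤ) ^ (wm T s).length) := by
    rw [lsum_cons, lsum_nil, add_zero]
    rfl
  have h4 : ((-1 : ℤ) ^ lh (dl T)) • (Finsupp.single (mk C4 (wm T s) * x, T.erase s)
      ((-1 : ℤ) ^ (wm T s).length) : Ch M4) = Finsupp.single (mk C4 (wm T s) * x, T.erase s)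
      ((-1 : ℤ) ^ lh (dl (T.erase s))) := by
    rw [Finsupp.smul_single, smul_eq_mul, neg_one_aux hl]
  have h5 : ((-1 : ℤ) ^ lh (dl T)) • (sg s T • lsum (MonoidHom.id M4) x (T.erase s) (L T s)) -
      sg s T • tp (dl T * x) (T.erase s) =
      ((-1 : ℤ) ^ lh (dl T)) • (sg s T • lsum (MonoidHom.id M4) x (T.erase s) (Lb T s)) := by
    rw [L_eq T s hs, lsum_append, h3, h2, ← h4, smul_add, smul_add,
      smul_comm ((-1 : ℤ) ^ lh (dl T)) (sg s T) (Finsupp.single _ _ : Ch M4), add_sub_cancel_right]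
  simp only at h5 ⊢
  rw [h5]
  refine Submodule.smul_mem _ _ (Submodule.smul_mem _ _ (lsum_mem _ _ _ fun w hw => ?_))
  have h6 := Lb_length T s hs w hw
  rw [lh_mul, lh_mul, lh_mk, lh_mul, hl]
  omega

open Classical in
/-- The letters dividing `y` on the left. -/
noncomputable def LD (y : M4) : Finset (Fin 4) :=
  Finset.univ.filter fun s => ∃ z, y = of C4 s * z

theorem mem_LD {y : M4} {s : Fin 4} : s ∈ LD y ↔ ∃ z, y = of C4 s * z := by
  simp [LD]

theorem exists_of_subset {y : M4} {T : Finset (Fin 4)} (h : T ⊆ LD y) : ∃ x, y = dl T * x :=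
  dl_dvd_left fun _ ht => mem_LD.mp (h ht)

theorem subset_LD {y x : M4} {T : Finset (Fin 4)} (h : y = dl T * x) : T ⊆ LD y := by
  intro t ht
  obtain ⟨z, hz⟩ := of_dvd_dl ht
  exact mem_LD.mpr ⟨z * x, by rw [h, hz, mul_assoc]⟩

/-- The homotopy on a basis element. -/
noncomputable def hB (p : M4 × Finset (Fin 4)) : Ch M4 :=
  if h : (LD (dl p.2 * p.1)).Nonempty then
    if (LD (dl p.2 * p.1)).min' h ∈ p.2 then 0
    else ((-1 : ℤ) ^ lh (dl p.2)) • tp (dl p.2 * p.1) (insert ((LD (dl p.2 * p.1)).min' h) p.2)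
  else 0

/-- The homotopy. -/
noncomputable def hC : Ch M4 →ₗ[ℤ] Ch M4 := Finsupp.linearCombination ℤ hB

theorem hC_single (p : M4 × Finset (Fin 4)) (c : ℤ) : hC (Finsupp.single p c) = c • hB p := by
  rw [hC, Finsupp.linearCombination_single]

theorem hC_tp {y x : M4} {T : Finset (Fin 4)} (hy : y = dl T * x) (h : (LD y).Nonempty) :
    hC (tp y T) = if (LD y).min' h ∈ T then 0 else tp y (insert ((LD y).min' h) T) := by
  subst hy
  rw [tp_mul, eb, hC_single, hB, dif_pos h]
  by_cases h1 : (LD (dl T * x)).min' h ∈ T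
  · rw [if_pos h1, if_pos h1, smul_zero]
  · rw [if_neg h1, if_neg h1, smul_smul, ← mul_pow]
    simp

theorem hB_mem (p : M4 × Finset (Fin 4)) : hB p ∈ Fl (lh (dl p.2 * p.1) + 1) := by
  unfold hB
  split_ifs
  · exact zero_mem _
  · exact Submodule.smul_mem _ _ (tp_mem _ _)
  · exact zero_mem _

theorem hC_Fl {N : ℕ} {c : Ch M4} (hc : c ∈ Fl N) : hC c ∈ Fl N := by
  rw [hC, Finsupp.linearCombination_apply]
  refine Submodule.sum_mem _ fun p hp => Submodule.smul_mem _ _ ?_
  have h1 : lh (dl p.2 * p.1) < N := (Finsupp.mem_supported ℤ c).1 hc hp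
  exact Fl_mono h1 (hB_mem p)

end AG
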