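import Pool.Agent.W_d741g_h37.F4Mon

/-! MP_d741cf_al, explicit complex: the words `L T s` (lifts of the elements of `W_T` without left
descent in `T - s`), ordered by length. Generated by computer. -/

namespace AG

/-- The bit mask of a subset. -/
def msk (T : Finset (Fin 4)) : ℕ :=
  (if (0 : Fin 4) ∈ T then 1 else 0) + (if (1 : Fin 4) ∈ T then 2 else 0) +
    (if (2 : Fin 4) ∈ T then 4 else 0) + (if (3 : Fin 4) ∈ T then 8 else 0)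

/-- `L T 0` for `T = {0}`. -/
def L1_0 : List (List (Fin 4)) :=
  [[], [0]]

/-- `L T 1` for `T = {1}`. -/
def L2_1 : List (List (Fin 4)) :=
  [[], [1]]

/-- `L T 0` for `T = {0, 1}`. -/
def L3_0 : List (List (Fin 4)) :=
  [[], [0], [0, 1]]

/-- `L T 1` for `T = {0, 1}`. -/
def L3_1 : List (List (Fin 4)) :=
  [[], [1], [1, 0]]

/-- `L T 2` for `T = {2}`. -/
def L4_2 : List (List (Fin 4)) :=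
  [[], [2]]

/-- `L T 0` for `T = {0, 2}`. -/
def L5_0 : List (List (Fin 4)) :=
  [[], [0]]

/-- `L T 2` for `T = {0, 2}`. -/
def L5_2 : List (List (Fin 4)) :=
  [[], [2]]

/-- `L T 1` for `T = {1, 2}`. -/
def L6_1 : List (List (Fin 4)) :=
  [[], [1], [1, 2], [1, 2, 1]]

/-- `L T 2` for `T = {1, 2}`. -/
def L6_2 : List (List (Fin 4)) :=
  [[], [2], [2, 1], [2, 1, 2]]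

/-- `L T 0` for `T = {0, 1, 2}`. -/
def L7_0 : List (List (Fin 4)) :=
  [[], [0], [0, 1], [0, 1, 2], [0, 1, 2, 1], [0, 1, 2, 1, 0]]

/-- `L T 1` for `T = {0, 1, 2}`. -/
def L7_1 : List (List (Fin 4)) :=
  [[], [1], [1, 0], [1, 2], [1, 0, 2], [1, 2, 1], [1, 0, 2, 1], [1, 2, 1, 0], [1, 0, 2, 1, 0],
   [1, 0, 2, 1, 2], [1, 0, 2, 1, 0, 2], [1, 0, 2, 1, 0, 2, 1]]

/-- `L T 2` for `T = {0, 1, 2}`. -/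
def L7_2 : List (List (Fin 4)) :=
  [[], [2], [2, 1], [2, 1, 0], [2, 1, 2], [2, 1, 0, 2], [2, 1, 0, 2, 1], [2, 1, 0, 2, 1, 2]]

/-- `L T 3` for `T = {3}`. -/
def L8_3 : List (List (Fin 4)) :=
  [[], [3]]

/-- `L T 0` for `T = {0, 3}`. -/
def L9_0 : List (List (Fin 4)) :=
  [[], [0]]

/-- `L T 3` for `T = {0, 3}`. -/
def L9_3 : List (List (Fin 4)) :=
  [[], [3]]

/-- `L T 1` for `T = {1, 3}`. -/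
def L10_1 : List (List (Fin 4)) :=
  [[], [1]]

/-- `L T 3` for `T = {1, 3}`. -/
def L10_3 : List (List (Fin 4)) :=
  [[], [3]]

/-- `L T 0` for `T = {0, 1, 3}`. -/
def L11_0 : List (List (Fin 4)) :=
  [[], [0], [0, 1]]

/-- `L T 1` for `T = {0, 1, 3}`. -/
def L11_1 : List (List (Fin 4)) :=
  [[], [1], [1, 0]]

/-- `L T 3` for `T = {0, 1, 3}`. -/
def L11_3 : List (List (Fin 4)) :=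
  [[], [3]]

/-- `L T 2` for `T = {2, 3}`. -/
def L12_2 : List (List (Fin 4)) :=
  [[], [2], [2, 3]]

/-- `L T 3` for `T = {2, 3}`. -/
def L12_3 : List (List (Fin 4)) :=
  [[], [3], [3, 2]]

/-- `L T 0` for `T = {0, 2, 3}`. -/
def L13_0 : List (List (Fin 4)) :=
  [[], [0]]

/-- `L T 2` for `T = {0, 2, 3}`. -/
def L13_2 : List (List (Fin 4)) :=
  [[], [2], [2, 3]]

/-- `L T 3` for `T = {0, 2, 3}`. -/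
def L13_3 : List (List (Fin 4)) :=
  [[], [3], [3, 2]]

/-- `L T 1` for `T = {1, 2, 3}`. -/
def L14_1 : List (List (Fin 4)) :=
  [[], [1], [1, 2], [1, 2, 1], [1, 2, 3], [1, 2, 1, 3], [1, 2, 1, 3, 2], [1, 2, 1, 3, 2, 1]]

/-- `L T 2` for `T = {1, 2, 3}`. -/
def L14_2 : List (List (Fin 4)) :=
  [[], [2], [2, 1], [2, 3], [2, 1, 2], [2, 1, 3], [2, 1, 2, 3], [2, 1, 3, 2], [2, 1, 2, 3, 2],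
   [2, 1, 3, 2, 1], [2, 1, 2, 3, 2, 1], [2, 1, 2, 3, 2, 1, 2]]

/-- `L T 3` for `T = {1, 2, 3}`. -/
def L14_3 : List (List (Fin 4)) :=
  [[], [3], [3, 2], [3, 2, 1], [3, 2, 1, 2], [3, 2, 1, 2, 3]]

/-- `L T 0` for `T = {0, 1, 2, 3}`. -/
def L15_0 : List (List (Fin 4)) :=
  [[], [0], [0, 1], [0, 1, 2], [0, 1, 2, 1], [0, 1, 2, 3], [0, 1, 2, 1, 0], [0, 1, 2, 1, 3],
   [0, 1, 2, 1, 0, 3], [0, 1, 2, 1, 3, 2], [0, 1, 2, 1, 0, 3, 2], [0, 1, 2, 1, 3, 2, 1],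
   [0, 1, 2, 1, 0, 3, 2, 1], [0, 1, 2, 1, 3, 2, 1, 0], [0, 1, 2, 1, 0, 3, 2, 1, 0],
   [0, 1, 2, 1, 0, 3, 2, 1, 2], [0, 1, 2, 1, 0, 3, 2, 1, 0, 2], [0, 1, 2, 1, 0, 3, 2, 1, 2, 3],
   [0, 1, 2, 1, 0, 3, 2, 1, 0, 2, 1], [0, 1, 2, 1, 0, 3, 2, 1, 0, 2, 3],
   [0, 1, 2, 1, 0, 3, 2, 1, 0, 2, 1, 3], [0, 1, 2, 1, 0, 3, 2, 1, 0, 2, 1, 3, 2],
   [0, 1, 2, 1, 0, 3, 2, 1, 0, 2, 1, 3, 2, 1], [0, 1, 2, 1, 0, 3, 2, 1, 0, 2, 1, 3, 2, 1, 0]]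

/-- `L T 1` for `T = {0, 1, 2, 3}`. -/
def L15_1 : List (List (Fin 4)) :=
  [[], [1], [1, 0], [1, 2], [1, 0, 2], [1, 2, 1], [1, 2, 3], [1, 0, 2, 1], [1, 0, 2, 3],
   [1, 2, 1, 0], [1, 2, 1, 3], [1, 0, 2, 1, 0], [1, 0, 2, 1, 2], [1, 0, 2, 1, 3],
   [1, 2, 1, 0, 3], [1, 2, 1, 3, 2], [1, 0, 2, 1, 0, 2], [1, 0, 2, 1, 0, 3], [1, 0, 2, 1, 2, 3],
   [1, 0, 2, 1, 3, 2], [1, 2, 1, 0, 3, 2], [1, 2, 1, 3, 2, 1], [1, 0, 2, 1, 0, 2, 1],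
   [1, 0, 2, 1, 0, 2, 3], [1, 0, 2, 1, 0, 3, 2], [1, 0, 2, 1, 2, 3, 2], [1, 0, 2, 1, 3, 2, 1],
   [1, 2, 1, 0, 3, 2, 1], [1, 2, 1, 3, 2, 1, 0], [1, 0, 2, 1, 0, 2, 1, 3],
   [1, 0, 2, 1, 0, 2, 3, 2], [1, 0, 2, 1, 0, 3, 2, 1], [1, 0, 2, 1, 2, 3, 2, 1],
   [1, 0, 2, 1, 3, 2, 1, 0], [1, 2, 1, 0, 3, 2, 1, 0], [1, 2, 1, 0, 3, 2, 1, 2],
   [1, 0, 2, 1, 0, 2, 1, 3, 2], [1, 0, 2, 1, 0, 2, 3, 2, 1], [1, 0, 2, 1, 0, 3, 2, 1, 0],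
   [1, 0, 2, 1, 0, 3, 2, 1, 2], [1, 0, 2, 1, 2, 3, 2, 1, 0], [1, 0, 2, 1, 2, 3, 2, 1, 2],
   [1, 2, 1, 0, 3, 2, 1, 0, 2], [1, 2, 1, 0, 3, 2, 1, 2, 3], [1, 0, 2, 1, 0, 2, 1, 3, 2, 1],
   [1, 0, 2, 1, 0, 2, 3, 2, 1, 0], [1, 0, 2, 1, 0, 2, 3, 2, 1, 2],
   [1, 0, 2, 1, 0, 3, 2, 1, 0, 2], [1, 0, 2, 1, 0, 3, 2, 1, 2, 3],
   [1, 0, 2, 1, 2, 3, 2, 1, 0, 2], [1, 2, 1, 0, 3, 2, 1, 0, 2, 1],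
   [1, 2, 1, 0, 3, 2, 1, 0, 2, 3], [1, 0, 2, 1, 0, 2, 1, 3, 2, 1, 0],
   [1, 0, 2, 1, 0, 2, 1, 3, 2, 1, 2], [1, 0, 2, 1, 0, 2, 3, 2, 1, 0, 2],
   [1, 0, 2, 1, 0, 2, 3, 2, 1, 2, 3], [1, 0, 2, 1, 0, 3, 2, 1, 0, 2, 1],
   [1, 0, 2, 1, 0, 3, 2, 1, 0, 2, 3], [1, 0, 2, 1, 2, 3, 2, 1, 0, 2, 1],
   [1, 2, 1, 0, 3, 2, 1, 0, 2, 1, 3], [1, 0, 2, 1, 0, 2, 1, 3, 2, 1, 0, 2],
   [1, 0, 2, 1, 0, 2, 1, 3, 2, 1, 2, 3], [1, 0, 2, 1, 0, 2, 3, 2, 1, 0, 2, 1],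
   [1, 0, 2, 1, 0, 2, 3, 2, 1, 0, 2, 3], [1, 0, 2, 1, 0, 3, 2, 1, 0, 2, 1, 3],
   [1, 0, 2, 1, 2, 3, 2, 1, 0, 2, 1, 2], [1, 2, 1, 0, 3, 2, 1, 0, 2, 1, 3, 2],
   [1, 0, 2, 1, 0, 2, 1, 3, 2, 1, 0, 2, 1], [1, 0, 2, 1, 0, 2, 1, 3, 2, 1, 0, 2, 3],
   [1, 0, 2, 1, 0, 2, 3, 2, 1, 0, 2, 1, 2], [1, 0, 2, 1, 0, 2, 3, 2, 1, 0, 2, 1, 3],
   [1, 0, 2, 1, 0, 3, 2, 1, 0, 2, 1, 3, 2], [1, 0, 2, 1, 2, 3, 2, 1, 0, 2, 1, 2, 3],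
   [1, 2, 1, 0, 3, 2, 1, 0, 2, 1, 3, 2, 1], [1, 0, 2, 1, 0, 2, 1, 3, 2, 1, 0, 2, 1, 2],
   [1, 0, 2, 1, 0, 2, 1, 3, 2, 1, 0, 2, 1, 3], [1, 0, 2, 1, 0, 2, 3, 2, 1, 0, 2, 1, 2, 3],
   [1, 0, 2, 1, 0, 2, 3, 2, 1, 0, 2, 1, 3, 2], [1, 0, 2, 1, 0, 3, 2, 1, 0, 2, 1, 3, 2, 1],
   [1, 2, 1, 0, 3, 2, 1, 0, 2, 1, 3, 2, 1, 0], [1, 0, 2, 1, 0, 2, 1, 3, 2, 1, 0, 2, 1, 2, 3],
   [1, 0, 2, 1, 0, 2, 1, 3, 2, 1, 0, 2, 1, 3, 2], [1, 0, 2, 1, 0, 2, 3, 2, 1, 0, 2, 1, 2, 3, 2],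
   [1, 0, 2, 1, 0, 2, 3, 2, 1, 0, 2, 1, 3, 2, 1], [1, 0, 2, 1, 0, 3, 2, 1, 0, 2, 1, 3, 2, 1, 0],
   [1, 0, 2, 1, 0, 2, 1, 3, 2, 1, 0, 2, 1, 2, 3, 2],
   [1, 0, 2, 1, 0, 2, 1, 3, 2, 1, 0, 2, 1, 3, 2, 1],
   [1, 0, 2, 1, 0, 2, 3, 2, 1, 0, 2, 1, 2, 3, 2, 1],
   [1, 0, 2, 1, 0, 2, 3, 2, 1, 0, 2, 1, 3, 2, 1, 0],
   [1, 0, 2, 1, 0, 2, 1, 3, 2, 1, 0, 2, 1, 2, 3, 2, 1],
   [1, 0, 2, 1, 0, 2, 1, 3, 2, 1, 0, 2, 1, 3, 2, 1, 0],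
   [1, 0, 2, 1, 0, 2, 3, 2, 1, 0, 2, 1, 2, 3, 2, 1, 0],
   [1, 0, 2, 1, 0, 2, 1, 3, 2, 1, 0, 2, 1, 2, 3, 2, 1, 0],
   [1, 0, 2, 1, 0, 2, 1, 3, 2, 1, 0, 2, 1, 2, 3, 2, 1, 2],
   [1, 0, 2, 1, 0, 2, 1, 3, 2, 1, 0, 2, 1, 2, 3, 2, 1, 0, 2],
   [1, 0, 2, 1, 0, 2, 1, 3, 2, 1, 0, 2, 1, 2, 3, 2, 1, 0, 2, 1]]

/-- `L T 2` for `T = {0, 1, 2, 3}`. -/
def L15_2 : List (List (Fin 4)) :=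
  [[], [2], [2, 1], [2, 3], [2, 1, 0], [2, 1, 2], [2, 1, 3], [2, 1, 0, 2], [2, 1, 0, 3],
   [2, 1, 2, 3], [2, 1, 3, 2], [2, 1, 0, 2, 1], [2, 1, 0, 2, 3], [2, 1, 0, 3, 2],
   [2, 1, 2, 3, 2], [2, 1, 3, 2, 1], [2, 1, 0, 2, 1, 2], [2, 1, 0, 2, 1, 3], [2, 1, 0, 2, 3, 2],
   [2, 1, 0, 3, 2, 1], [2, 1, 2, 3, 2, 1], [2, 1, 3, 2, 1, 0], [2, 1, 0, 2, 1, 2, 3],
   [2, 1, 0, 2, 1, 3, 2], [2, 1, 0, 2, 3, 2, 1], [2, 1, 0, 3, 2, 1, 0], [2, 1, 0, 3, 2, 1, 2],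
   [2, 1, 2, 3, 2, 1, 0], [2, 1, 2, 3, 2, 1, 2], [2, 1, 0, 2, 1, 2, 3, 2],
   [2, 1, 0, 2, 1, 3, 2, 1], [2, 1, 0, 2, 3, 2, 1, 0], [2, 1, 0, 2, 3, 2, 1, 2],
   [2, 1, 0, 3, 2, 1, 0, 2], [2, 1, 0, 3, 2, 1, 2, 3], [2, 1, 2, 3, 2, 1, 0, 2],
   [2, 1, 0, 2, 1, 2, 3, 2, 1], [2, 1, 0, 2, 1, 3, 2, 1, 0], [2, 1, 0, 2, 1, 3, 2, 1, 2],
   [2, 1, 0, 2, 3, 2, 1, 0, 2], [2, 1, 0, 2, 3, 2, 1, 2, 3], [2, 1, 0, 3, 2, 1, 0, 2, 1],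
   [2, 1, 0, 3, 2, 1, 0, 2, 3], [2, 1, 2, 3, 2, 1, 0, 2, 1], [2, 1, 0, 2, 1, 2, 3, 2, 1, 0],
   [2, 1, 0, 2, 1, 2, 3, 2, 1, 2], [2, 1, 0, 2, 1, 3, 2, 1, 0, 2],
   [2, 1, 0, 2, 1, 3, 2, 1, 2, 3], [2, 1, 0, 2, 3, 2, 1, 0, 2, 1],
   [2, 1, 0, 2, 3, 2, 1, 0, 2, 3], [2, 1, 0, 3, 2, 1, 0, 2, 1, 3],
   [2, 1, 2, 3, 2, 1, 0, 2, 1, 2], [2, 1, 0, 2, 1, 2, 3, 2, 1, 0, 2],
   [2, 1, 0, 2, 1, 2, 3, 2, 1, 2, 3], [2, 1, 0, 2, 1, 3, 2, 1, 0, 2, 1],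
   [2, 1, 0, 2, 1, 3, 2, 1, 0, 2, 3], [2, 1, 0, 2, 3, 2, 1, 0, 2, 1, 2],
   [2, 1, 0, 2, 3, 2, 1, 0, 2, 1, 3], [2, 1, 0, 3, 2, 1, 0, 2, 1, 3, 2],
   [2, 1, 2, 3, 2, 1, 0, 2, 1, 2, 3], [2, 1, 0, 2, 1, 2, 3, 2, 1, 0, 2, 1],
   [2, 1, 0, 2, 1, 2, 3, 2, 1, 0, 2, 3], [2, 1, 0, 2, 1, 3, 2, 1, 0, 2, 1, 2],
   [2, 1, 0, 2, 1, 3, 2, 1, 0, 2, 1, 3], [2, 1, 0, 2, 3, 2, 1, 0, 2, 1, 2, 3],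
   [2, 1, 0, 2, 3, 2, 1, 0, 2, 1, 3, 2], [2, 1, 0, 3, 2, 1, 0, 2, 1, 3, 2, 1],
   [2, 1, 0, 2, 1, 2, 3, 2, 1, 0, 2, 1, 2], [2, 1, 0, 2, 1, 2, 3, 2, 1, 0, 2, 1, 3],
   [2, 1, 0, 2, 1, 3, 2, 1, 0, 2, 1, 2, 3], [2, 1, 0, 2, 1, 3, 2, 1, 0, 2, 1, 3, 2],
   [2, 1, 0, 2, 3, 2, 1, 0, 2, 1, 2, 3, 2], [2, 1, 0, 2, 3, 2, 1, 0, 2, 1, 3, 2, 1],
   [2, 1, 0, 3, 2, 1, 0, 2, 1, 3, 2, 1, 0], [2, 1, 0, 2, 1, 2, 3, 2, 1, 0, 2, 1, 2, 3],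
   [2, 1, 0, 2, 1, 2, 3, 2, 1, 0, 2, 1, 3, 2], [2, 1, 0, 2, 1, 3, 2, 1, 0, 2, 1, 2, 3, 2],
   [2, 1, 0, 2, 1, 3, 2, 1, 0, 2, 1, 3, 2, 1], [2, 1, 0, 2, 3, 2, 1, 0, 2, 1, 2, 3, 2, 1],
   [2, 1, 0, 2, 3, 2, 1, 0, 2, 1, 3, 2, 1, 0], [2, 1, 0, 2, 1, 2, 3, 2, 1, 0, 2, 1, 2, 3, 2],
   [2, 1, 0, 2, 1, 2, 3, 2, 1, 0, 2, 1, 3, 2, 1], [2, 1, 0, 2, 1, 3, 2, 1, 0, 2, 1, 2, 3, 2, 1],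
   [2, 1, 0, 2, 1, 3, 2, 1, 0, 2, 1, 3, 2, 1, 0], [2, 1, 0, 2, 3, 2, 1, 0, 2, 1, 2, 3, 2, 1, 0],
   [2, 1, 0, 2, 1, 2, 3, 2, 1, 0, 2, 1, 2, 3, 2, 1],
   [2, 1, 0, 2, 1, 2, 3, 2, 1, 0, 2, 1, 3, 2, 1, 0],
   [2, 1, 0, 2, 1, 3, 2, 1, 0, 2, 1, 2, 3, 2, 1, 0],
   [2, 1, 0, 2, 1, 3, 2, 1, 0, 2, 1, 2, 3, 2, 1, 2],
   [2, 1, 0, 2, 1, 2, 3, 2, 1, 0, 2, 1, 2, 3, 2, 1, 0],
   [2, 1, 0, 2, 1, 2, 3, 2, 1, 0, 2, 1, 2, 3, 2, 1, 2],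
   [2, 1, 0, 2, 1, 3, 2, 1, 0, 2, 1, 2, 3, 2, 1, 0, 2],
   [2, 1, 0, 2, 1, 2, 3, 2, 1, 0, 2, 1, 2, 3, 2, 1, 0, 2],
   [2, 1, 0, 2, 1, 3, 2, 1, 0, 2, 1, 2, 3, 2, 1, 0, 2, 1],
   [2, 1, 0, 2, 1, 2, 3, 2, 1, 0, 2, 1, 2, 3, 2, 1, 0, 2, 1],
   [2, 1, 0, 2, 1, 2, 3, 2, 1, 0, 2, 1, 2, 3, 2, 1, 0, 2, 1, 2]]

/-- `L T 3` for `T = {0, 1, 2, 3}`. -/
def L15_3 : List (List (Fin 4)) :=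
  [[], [3], [3, 2], [3, 2, 1], [3, 2, 1, 0], [3, 2, 1, 2], [3, 2, 1, 0, 2], [3, 2, 1, 2, 3],
   [3, 2, 1, 0, 2, 1], [3, 2, 1, 0, 2, 3], [3, 2, 1, 0, 2, 1, 2], [3, 2, 1, 0, 2, 1, 3],
   [3, 2, 1, 0, 2, 1, 2, 3], [3, 2, 1, 0, 2, 1, 3, 2], [3, 2, 1, 0, 2, 1, 2, 3, 2],
   [3, 2, 1, 0, 2, 1, 3, 2, 1], [3, 2, 1, 0, 2, 1, 2, 3, 2, 1], [3, 2, 1, 0, 2, 1, 3, 2, 1, 0],
   [3, 2, 1, 0, 2, 1, 2, 3, 2, 1, 0], [3, 2, 1, 0, 2, 1, 2, 3, 2, 1, 2],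
   [3, 2, 1, 0, 2, 1, 2, 3, 2, 1, 0, 2], [3, 2, 1, 0, 2, 1, 2, 3, 2, 1, 0, 2, 1],
   [3, 2, 1, 0, 2, 1, 2, 3, 2, 1, 0, 2, 1, 2], [3, 2, 1, 0, 2, 1, 2, 3, 2, 1, 0, 2, 1, 2, 3]]

/-- The table of all lists, index `4 * mask + s`. -/
def tabL : List (List (List (Fin 4))) :=
  [[], [], [], [],
   L1_0, [], [], [],
   [], L2_1, [], [],
   L3_0, L3_1, [], [],
   [], [], L4_2, [],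
   L5_0, [], L5_2, [],
   [], L6_1, L6_2, [],
   L7_0, L7_1, L7_2, [],
   [], [], [], L8_3,
   L9_0, [], [], L9_3,
   [], L10_1, [], L10_3,
   L11_0, L11_1, [], L11_3,
   [], [], L12_2, L12_3,
   L13_0, [], L13_2, L13_3,
   [], L14_1, L14_2, L14_3,
   L15_0, L15_1, L15_2, L15_3]

/-- The words without left descent in `T - s` in the standard parabolic `T`. -/
def L (T : Finset (Fin 4)) (s : Fin 4) : List (List (Fin 4)) := tabL.getD (4 * msk T + s.val) []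

theorem L_univ_zero : L Finset.univ 0 = L15_0 := by decide +kernel

/-- The last (longest) word. -/
def wm (T : Finset (Fin 4)) (s : Fin 4) : List (Fin 4) := (L T s).getLastD []

/-- The other words. -/
def Lb (T : Finset (Fin 4)) (s : Fin 4) : List (List (Fin 4)) := (L T s).dropLast

theorem L_eq : ∀ T : Finset (Fin 4), ∀ s ∈ T, L T s = Lb T s ++ [wm T s] := by decide +kernel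

theorem Lb_length : ∀ T : Finset (Fin 4), ∀ s ∈ T, ∀ w ∈ Lb T s, w.length < (wm T s).length := by
  decide +kernel

theorem wm_rev : ∀ T : Finset (Fin 4), ∀ s ∈ T,
    rev C4 60 (dW (lst (T.erase s)) ++ wm T s) (dW (lst T)) = some ([], []) := by decide +kernel

/-- The first word is empty. -/
theorem L_head : ∀ T : Finset (Fin 4), ∀ s ∈ T, (L T s).head? = some [] := by decide +kernel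

open AM in
/-- `Δ_{T - s} w_max = Δ_T`. -/
theorem dl_mul_wm {T : Finset (Fin 4)} {s : Fin 4} (hs : s ∈ T) :
    dl (T.erase s) * mk C4 (wm T s) = dl T := by
  have h := rev_eq (wm_rev T s hs)
  rw [mk_nil, mul_one, mul_one, mk_append] at h
  exact h

end AG
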