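import Pool.Agent.W_d741r_h37.Lists

/-! MP_d741cf_al, explicit complex: the matching of the products `w' w` for the two orders of
removing `s` and `t` (generated by computer, checked by reversing). -/

namespace AG

/-- Matching for `T = {0, 1}`, `s = 0`, `t = 1`. -/
def J3_01 : List ℕ :=
  [0, 2, 1, 4, 3, 5]

/-- Matching for `T = {0, 2}`, `s = 0`, `t = 2`. -/
def J5_02 : List ℕ :=
  [0, 2, 1, 3]

/-- Matching for `T = {1, 2}`, `s = 1`, `t = 2`. -/
def J6_12 : List ℕ :=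
  [0, 2, 1, 4, 3, 6, 5, 7]

/-- Matching for `T = {0, 1, 2}`, `s = 0`, `t = 1`. -/
def J7_01 : List ℕ :=
  [0, 2, 6, 10, 1, 4, 8, 14, 3, 5, 12, 16, 7, 9, 18, 20, 11, 13, 19, 22, 15, 17, 21, 23]

/-- Matching for `T = {0, 1, 2}`, `s = 0`, `t = 2`. -/
def J7_02 : List ℕ :=
  [0, 3, 6, 12, 1, 4, 9, 15, 2, 7, 10, 18, 5, 13, 16, 21, 8, 14, 19, 22, 11, 17, 20, 23]

/-- Matching for `T = {0, 1, 2}`, `s = 1`, `t = 2`. -/
def J7_12 : List ℕ :=
  [0, 3, 1, 6, 2, 9, 4, 12, 5, 15, 7, 13, 8, 18, 10, 16, 11, 19, 14, 21, 17, 22, 20, 23]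

/-- Matching for `T = {0, 3}`, `s = 0`, `t = 3`. -/
def J9_03 : List ℕ :=
  [0, 2, 1, 3]

/-- Matching for `T = {1, 3}`, `s = 1`, `t = 3`. -/
def J10_13 : List ℕ :=
  [0, 2, 1, 3]

/-- Matching for `T = {0, 1, 3}`, `s = 0`, `t = 1`. -/
def J11_01 : List ℕ :=
  [0, 2, 1, 4, 3, 5]

/-- Matching for `T = {0, 1, 3}`, `s = 0`, `t = 3`. -/
def J11_03 : List ℕ :=
  [0, 3, 1, 4, 2, 5]

/-- Matching for `T = {0, 1, 3}`, `s = 1`, `t = 3`. -/
def J11_13 : List ℕ :=
  [0, 3, 1, 4, 2, 5]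

/-- Matching for `T = {2, 3}`, `s = 2`, `t = 3`. -/
def J12_23 : List ℕ :=
  [0, 2, 1, 4, 3, 5]

/-- Matching for `T = {0, 2, 3}`, `s = 0`, `t = 2`. -/
def J13_02 : List ℕ :=
  [0, 2, 4, 1, 3, 5]

/-- Matching for `T = {0, 2, 3}`, `s = 0`, `t = 3`. -/
def J13_03 : List ℕ :=
  [0, 2, 4, 1, 3, 5]

/-- Matching for `T = {0, 2, 3}`, `s = 2`, `t = 3`. -/
def J13_23 : List ℕ :=
  [0, 2, 1, 4, 3, 5]

/-- Matching for `T = {1, 2, 3}`, `s = 1`, `t = 2`. -/
def J14_12 : List ℕ :=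
  [0, 2, 6, 1, 4, 10, 3, 8, 14, 5, 9, 18, 7, 12, 16, 11, 13, 20, 15, 17, 22, 19, 21, 23]

/-- Matching for `T = {1, 2, 3}`, `s = 1`, `t = 3`. -/
def J14_13 : List ℕ :=
  [0, 4, 8, 1, 5, 12, 2, 9, 16, 3, 13, 17, 6, 10, 20, 7, 14, 21, 11, 18, 22, 15, 19, 23]

/-- Matching for `T = {1, 2, 3}`, `s = 2`, `t = 3`. -/
def J14_23 : List ℕ :=
  [0, 4, 1, 8, 2, 12, 5, 9, 3, 16, 6, 13, 7, 20, 10, 17, 11, 21, 14, 18, 15, 22, 19, 23]

/-- Matching for `T = {0, 1, 2, 3}`, `s = 0`, `t = 1`. -/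
def J15_01 : List ℕ :=
  [0, 2, 6, 10, 12, 20, 30, 42, 1, 4, 8, 18, 16, 28, 40, 56, 3, 5, 14, 22, 26, 34, 54, 68, 7, 9,
   24, 32, 38, 48, 70, 84, 11, 15, 25, 44, 52, 62, 78, 100, 13, 17, 36, 46, 50, 60, 86, 102, 19,
   23, 33, 45, 66, 76, 94, 112, 21, 27, 37, 58, 64, 74, 96, 118, 29, 35, 47, 59, 80, 90, 114,
   128, 31, 39, 51, 72, 82, 92, 110, 132, 41, 49, 61, 73, 98, 108, 126, 142, 43, 53, 65, 88, 83,
   106, 122, 146, 55, 63, 75, 89, 116, 124, 140, 156, 57, 67, 81, 104, 99, 120, 136, 158, 69, 77,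
   91, 105, 117, 134, 150, 168, 71, 79, 93, 107, 130, 138, 154, 166, 85, 95, 109, 121, 131, 148,
   162, 176, 87, 97, 111, 123, 144, 152, 164, 174, 101, 113, 125, 135, 139, 149, 172, 180, 103,
   115, 127, 137, 145, 160, 170, 182, 119, 129, 141, 151, 153, 161, 178, 184, 133, 143, 155, 163,
   165, 171, 186, 188, 147, 157, 167, 173, 175, 179, 187, 190, 159, 169, 177, 181, 183, 185, 189,
   191]

/-- Matching for `T = {0, 1, 2, 3}`, `s = 0`, `t = 2`. -/
def J15_02 : List ℕ :=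
  [0, 3, 6, 9, 15, 18, 27, 30, 42, 45, 60, 84, 1, 4, 12, 10, 21, 24, 36, 39, 54, 63, 81, 105, 2,
   7, 13, 19, 33, 25, 51, 57, 72, 75, 93, 129, 5, 16, 22, 31, 48, 40, 69, 78, 96, 99, 117, 153,
   8, 17, 34, 46, 49, 58, 90, 79, 114, 123, 144, 168, 11, 28, 37, 43, 66, 55, 87, 102, 120, 126,
   147, 177, 14, 23, 35, 64, 50, 76, 111, 100, 138, 124, 162, 186, 20, 29, 52, 61, 67, 73, 108,
   103, 141, 150, 171, 192, 26, 38, 53, 82, 68, 94, 132, 127, 165, 151, 189, 207, 32, 44, 70, 85,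
   88, 97, 135, 121, 159, 174, 195, 213, 41, 56, 71, 106, 89, 118, 156, 148, 183, 175, 210, 228,
   47, 62, 91, 86, 109, 115, 136, 142, 160, 198, 216, 234, 59, 74, 92, 130, 110, 145, 180, 172,
   204, 199, 231, 246, 65, 83, 112, 107, 133, 139, 157, 166, 184, 219, 237, 252, 77, 95, 113,
   131, 134, 163, 181, 190, 205, 220, 249, 261, 80, 98, 116, 154, 137, 169, 201, 196, 225, 217,
   243, 264, 101, 119, 140, 155, 158, 187, 202, 211, 226, 238, 258, 273, 104, 122, 143, 178, 161,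
   193, 222, 214, 240, 235, 255, 270, 125, 146, 164, 170, 182, 188, 203, 232, 244, 250, 259, 279,
   128, 149, 167, 179, 185, 208, 223, 229, 241, 253, 267, 276, 152, 173, 191, 194, 206, 209, 224,
   247, 256, 262, 268, 282, 176, 197, 212, 215, 227, 230, 242, 265, 271, 274, 277, 285, 200, 218,
   233, 236, 245, 248, 257, 266, 272, 280, 283, 286, 221, 239, 251, 254, 260, 263, 269, 275, 278,
   281, 284, 287]

/-- Matching for `T = {0, 1, 2, 3}`, `s = 0`, `t = 3`. -/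
def J15_03 : List ℕ :=
  [0, 6, 12, 18, 30, 42, 1, 7, 13, 24, 36, 54, 2, 8, 19, 25, 48, 66, 3, 14, 31, 37, 60, 78, 4,
   20, 32, 49, 61, 90, 9, 15, 43, 55, 72, 84, 5, 26, 38, 50, 62, 102, 10, 21, 44, 67, 73, 96, 11,
   27, 56, 68, 74, 108, 16, 33, 45, 79, 85, 114, 17, 39, 57, 80, 86, 120, 22, 34, 46, 91, 97,
   115, 23, 51, 69, 92, 98, 126, 28, 40, 58, 103, 109, 121, 29, 52, 70, 104, 110, 127, 35, 63,
   81, 93, 116, 132, 41, 64, 82, 105, 122, 133, 47, 75, 87, 99, 117, 138, 53, 65, 94, 106, 128,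
   134, 59, 76, 88, 111, 123, 139, 71, 77, 100, 112, 129, 140, 83, 89, 118, 124, 135, 141, 95,
   101, 119, 130, 136, 142, 107, 113, 125, 131, 137, 143]

/-- Matching for `T = {0, 1, 2, 3}`, `s = 1`, `t = 2`. -/
def J15_12 : List ℕ :=
  [0, 3, 9, 1, 6, 18, 2, 12, 24, 4, 15, 30, 5, 21, 39, 7, 16, 45, 10, 27, 42, 8, 33, 57, 11, 36,
   54, 13, 22, 63, 19, 28, 60, 14, 34, 75, 17, 48, 78, 20, 51, 72, 25, 37, 81, 31, 43, 84, 23,
   49, 99, 26, 52, 93, 29, 66, 102, 32, 69, 96, 40, 55, 105, 46, 61, 85, 35, 50, 123, 38, 67,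
   126, 41, 70, 117, 44, 87, 120, 47, 90, 114, 58, 73, 129, 64, 82, 106, 53, 68, 150, 56, 88,
   147, 59, 91, 144, 62, 108, 141, 65, 111, 138, 76, 94, 130, 79, 97, 153, 71, 89, 174, 74, 109,
   171, 77, 112, 162, 80, 115, 168, 83, 132, 165, 86, 135, 159, 100, 118, 154, 103, 121, 177, 92,
   110, 198, 95, 133, 189, 98, 136, 195, 101, 139, 186, 104, 142, 192, 107, 156, 183, 124, 145,
   169, 127, 148, 178, 113, 134, 219, 116, 137, 216, 119, 157, 210, 122, 160, 213, 125, 163, 187,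
   128, 166, 207, 131, 180, 204, 151, 172, 193, 140, 158, 237, 143, 161, 234, 146, 181, 231, 149,
   184, 228, 152, 190, 208, 155, 201, 225, 175, 196, 214, 164, 182, 249, 167, 185, 252, 170, 202,
   243, 173, 205, 246, 176, 211, 229, 179, 222, 240, 199, 217, 235, 188, 203, 258, 191, 206, 261,
   194, 223, 255, 197, 226, 264, 200, 232, 247, 220, 238, 253, 209, 224, 267, 212, 227, 273, 215,
   241, 270, 218, 244, 265, 221, 250, 262, 230, 242, 276, 233, 245, 279, 236, 256, 271, 239, 259,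
   274, 248, 257, 282, 251, 260, 280, 254, 268, 277, 263, 269, 283, 266, 272, 285, 275, 278, 286,
   281, 284, 287]

/-- Matching for `T = {0, 1, 2, 3}`, `s = 1`, `t = 3`. -/
def J15_13 : List ℕ :=
  [0, 12, 24, 1, 13, 36, 2, 14, 48, 3, 25, 60, 4, 26, 72, 5, 37, 61, 15, 27, 84, 6, 38, 96, 16,
   28, 108, 7, 49, 73, 17, 39, 85, 8, 50, 97, 9, 62, 120, 18, 40, 132, 19, 51, 109, 29, 63, 87,
   10, 74, 121, 20, 52, 133, 21, 86, 144, 30, 64, 156, 31, 75, 111, 41, 65, 89, 11, 98, 122, 22,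
   110, 145, 32, 76, 157, 33, 88, 168, 42, 66, 180, 43, 99, 135, 53, 77, 113, 23, 134, 146, 34,
   112, 169, 44, 100, 181, 45, 90, 192, 54, 78, 204, 55, 101, 137, 67, 123, 159, 35, 158, 170,
   46, 136, 193, 56, 102, 205, 68, 124, 183, 57, 114, 216, 69, 93, 228, 79, 125, 161, 91, 147,
   171, 47, 182, 194, 58, 138, 217, 70, 160, 229, 80, 126, 207, 92, 148, 195, 81, 117, 240, 103,
   127, 185, 115, 149, 173, 59, 206, 218, 71, 184, 230, 82, 162, 241, 94, 172, 231, 104, 128,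
   209, 116, 150, 219, 105, 141, 252, 139, 151, 197, 83, 208, 242, 95, 196, 232, 106, 186, 253,
   118, 174, 243, 140, 152, 221, 129, 165, 264, 163, 175, 233, 107, 210, 254, 119, 220, 244, 130,
   189, 265, 142, 198, 255, 164, 176, 245, 153, 177, 276, 187, 199, 235, 131, 213, 266, 143, 222,
   256, 154, 201, 277, 166, 234, 267, 188, 200, 257, 211, 223, 247, 155, 225, 278, 167, 246, 268,
   178, 237, 279, 190, 236, 269, 212, 224, 259, 179, 249, 280, 191, 258, 270, 202, 238, 281, 214,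
   248, 271, 203, 261, 282, 215, 260, 272, 226, 250, 283, 227, 262, 284, 239, 273, 285, 251, 274,
   286, 263, 275, 287]

/-- Matching for `T = {0, 1, 2, 3}`, `s = 2`, `t = 3`. -/
def J15_23 : List ℕ :=
  [0, 8, 1, 16, 2, 24, 9, 17, 3, 32, 4, 40, 10, 25, 5, 48, 11, 33, 12, 56, 18, 41, 6, 64, 13, 72,
   19, 49, 20, 57, 26, 42, 7, 80, 14, 88, 21, 73, 27, 65, 28, 58, 34, 50, 15, 96, 22, 104, 29,
   89, 35, 66, 43, 81, 36, 74, 44, 60, 23, 112, 30, 120, 37, 90, 45, 105, 51, 82, 59, 97, 52, 76,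
   31, 128, 38, 136, 46, 121, 53, 106, 61, 113, 67, 83, 75, 98, 68, 92, 39, 144, 47, 152, 54,
   137, 62, 129, 69, 122, 77, 114, 91, 99, 84, 108, 55, 160, 63, 153, 70, 138, 78, 145, 85, 124,
   93, 130, 107, 115, 100, 116, 71, 168, 79, 161, 86, 140, 94, 146, 101, 132, 109, 154, 123, 131,
   87, 176, 95, 169, 102, 148, 110, 162, 117, 156, 125, 155, 139, 147, 103, 184, 111, 177, 118,
   164, 126, 170, 133, 157, 141, 163, 119, 185, 127, 178, 134, 172, 142, 171, 149, 165, 135, 186,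
   143, 179, 150, 173, 158, 180, 151, 187, 159, 188, 166, 181, 167, 189, 174, 182, 175, 190, 183,
   191]

/-- The table of matchings, index `16 * mask + 4 * s + t`. -/
def tabJ : List (List ℕ) :=
  [[], [], [], [],
   [], [], [], [],
   [], [], [], [],
   [], [], [], [],
   [], [], [], [],
   [], [], [], [],
   [], [], [], [],
   [], [], [], [],
   [], [], [], [],
   [], [], [], [],
   [], [], [], [],
   [], [], [], [],
   [], J3_01, [], [],
   [], [], [], [],
   [], [], [], [],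
   [], [], [], [],
   [], [], [], [],
   [], [], [], [],
   [], [], [], [],
   [], [], [], [],
   [], [], J5_02, [],
   [], [], [], [],
   [], [], [], [],
   [], [], [], [],
   [], [], [], [],
   [], [], J6_12, [],
   [], [], [], [],
   [], [], [], [],
   [], J7_01, J7_02, [],
   [], [], J7_12, [],
   [], [], [], [],
   [], [], [], [],
   [], [], [], [],
   [], [], [], [],
   [], [], [], [],
   [], [], [], [],
   [], [], [], J9_03,
   [], [], [], [],
   [], [], [], [],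
   [], [], [], [],
   [], [], [], [],
   [], [], [], J10_13,
   [], [], [], [],
   [], [], [], [],
   [], J11_01, [], J11_03,
   [], [], [], J11_13,
   [], [], [], [],
   [], [], [], [],
   [], [], [], [],
   [], [], [], [],
   [], [], [], J12_23,
   [], [], [], [],
   [], [], J13_02, J13_03,
   [], [], [], [],
   [], [], [], J13_23,
   [], [], [], [],
   [], [], [], [],
   [], [], J14_12, J14_13,
   [], [], [], J14_23,
   [], [], [], [],
   [], J15_01, J15_02, J15_03,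
   [], [], J15_12, J15_13,
   [], [], [], J15_23,
   [], [], [], []]

/-- The products of the words of `L T s` and `L (T - s) t`. -/
def PL (T : Finset (Fin 4)) (s t : Fin 4) : List (List (Fin 4)) :=
  (L T s).flatMap fun w => (L (T.erase s) t).map fun w' => w' ++ w

/-- Check that the words of `P1` are equal in the monoid to the words of `P2` of index in `J`. -/
def zipChk (k : ℕ) (P2 : List (List (Fin 4))) : List ℕ → List (List (Fin 4)) → Bool
  | [], [] => true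
  | j :: J, w :: P => (rev C4 k w (P2.getD j []) == some ([], [])) && zipChk k P2 J P
  | _, _ => false

open AM in
theorem map_of_zipChk {k : ℕ} {P2 : List (List (Fin 4))} : ∀ {J : List ℕ}
    {P1 : List (List (Fin 4))}, zipChk k P2 J P1 = true →
    P1.map (mk C4) = J.map fun j => mk C4 (P2.getD j []) := by
  intro J
  induction J with
  | nil =>
    intro P1 h
    cases P1 with
    | nil => rfl
    | cons w P => simp [zipChk] at h
  | cons j J ih =>
    intro P1 h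
    cases P1 with
    | nil => simp [zipChk] at h
    | cons w P =>
      rw [zipChk, Bool.and_eq_true, beq_iff_eq] at h
      have h1 := rev_eq h.1
      rw [mk_nil, mul_one, mul_one] at h1
      rw [List.map_cons, List.map_cons, ih h.2, h1]

open AM in
theorem perm_of_chk {k : ℕ} {J : List ℕ} {P1 P2 : List (List (Fin 4))}
    (hJ : J.Perm (List.range P2.length)) (h : zipChk k P2 J P1 = true) :
    (P1.map (mk C4)).Perm (P2.map (mk C4)) := by
  rw [map_of_zipChk h]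
  refine (hJ.map _).trans (List.Perm.of_eq ?_)
  apply List.ext_getElem
  · simp
  · intro n h1 h2
    simp only [List.length_map] at h2
    simp [h2]

/-- The check for `T, s, t`. -/
def chkJ (T : Finset (Fin 4)) (s t : Fin 4) : Bool :=
  ((tabJ.getD (16 * msk T + 4 * s.val + t.val) []).isPerm (List.range (PL T t s).length)) &&
    zipChk 60 (PL T t s) (tabJ.getD (16 * msk T + 4 * s.val + t.val) []) (PL T s t)

end AG
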